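import Pool.Agent.H99.AbsPairs2

/-!
# MP_5e7226_co: Q1 for all pairs whose polar body is close to a parallelotope, in every dimension

`Separable K o n`: there are `n` hyperplanes such that every face of `K` is strictly separated from
`o` by one of them. `IsCrossBody K o`: `K` is a cross-body centred at `o`. (Both as in the frozen
statement.) We prove both assertions of Q1 for all pairs `(K, o)`, without any symmetry, for which
the polar body `P` of `K` with respect to `o` satisfies `w + Q ⊆ P ⊆ w + (109/100) Q` for some
parallelotope `Q` with centre `0` and some point `w`; in particular for all convex bodies `K` with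
`O ⊆ K - o ⊆ (109/100) O`, where `O` is a cross-polytope with centre `0`. The neighbourhood does not
depend on the dimension.

Proof. Let `[-1, 1] ^ d` be a parallelotope of (locally) smallest volume containing `P`, in suitable
coordinates. There are points `c j ± e j` of `P` on opposite facets, with `(c j) j = 0`. Let
`1 + r ≤ 7/5` be the largest `ℓ₁` norm on the polar body of `P` with respect to the centre of the
cube, attained at `y`, where `y ≥ 0` after a change of signs; `r = 0` means that `P` is the cube.
The `2 ^ d - 1` functionals are the sign vectors with at least two entries `-1` and the vectors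
`1 - (4/5) c j - (1 + κ) e j` with `κ = (57/100) r`. For a boundary point `x` of `P` take the sign
vector which is `-1` where `x i ≤ 2/5` if there are at least two such `i`; if there is one such `j`
take `1 - (4/5) c j - (1 + κ) e j`; if there is none, take `j` with `x j` smallest, so that
`x j ≤ 1 / (1 + r)`. The contact points give `⟪p, c j⟫ ≤ 1 - |p j|` for the normal vectors `p`,
which compensates for the possible excess of `|p j|` over `1` (for symmetric bodies there is none).
-/

set_option autoImplicit false

open scoped InnerProductSpace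

namespace Pool.Agent.Results.MP_5e7226_co.AbsoluteNeighbourhood

/-- Euclidean space. -/
abbrev E (d : ℕ) := EuclideanSpace ℝ (Fin d)

/-- There are `n` hyperplanes `{x | ⟪w i, x⟫ = b i}` such that every face of `K` (the set of the
points of `K` at which a functional `⟪u, ·⟫`, `u ≠ 0`, is maximal on `K`) is strictly separated from
`o` by at least one of them. -/
def Separable {d : ℕ} (K : Set (E d)) (o : E d) (n : ℕ) : Prop :=
  ∃ w : Fin n → E d, ∃ b : Fin n → ℝ, ∀ u x₀ : E d, u ≠ 0 → x₀ ∈ K →
    (∀ y ∈ K, ⟪u, y⟫_ℝ ≤ ⟪u, x₀⟫_ℝ) →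
      ∃ i, ⟪w i, o⟫_ℝ < b i ∧ ∀ x ∈ K, ⟪u, x⟫_ℝ = ⟪u, x₀⟫_ℝ → b i < ⟪w i, x⟫_ℝ

/-- `K` is a cross-body centred at `o`: the convex hull of `d` segments with linearly independent
directions which contain `o` in their relative interiors. -/
def IsCrossBody {d : ℕ} (K : Set (E d)) (o : E d) : Prop :=
  ∃ v : Fin d → E d, ∃ t : Fin d → ℝ, LinearIndependent ℝ v ∧ (∀ i, 0 < t i) ∧
    K = convexHull ℝ (⋃ i, ({o + v i, o - t i • v i} : Set (E d)))

/-- The polar body of `K` with respect to `o`. -/
def polarBody {d : ℕ} (K : Set (E d)) (o : E d) : Set (E d) := {x | ∀ y ∈ K, ⟪x, y - o⟫_ℝ ≤ 1}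

/-- **Main theorem.** -/
theorem result (d : ℕ) (hd : 1 ≤ d) (K : Set (E d)) (o : E d) (hcv : Convex ℝ K)
    (hcp : IsCompact K) (v : Fin d → E d) (hv : LinearIndependent ℝ v)
    (h : -- the polar body is close to a parallelotope
      (∃ w : E d, (∀ t : Fin d → ℝ, (∀ i, |t i| ≤ 1) → w + ∑ i, t i • v i ∈ polarBody K o) ∧
        ∀ x ∈ polarBody K o, ∃ t : Fin d → ℝ, (∀ i, |t i| ≤ 109 / 100) ∧
          x = w + ∑ i, t i • v i) ∨
      -- in particular: the body is close to a cross-polytope
      ((∀ i, o + v i ∈ K ∧ o - v i ∈ K) ∧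
        ∀ y ∈ K, ∃ t : Fin d → ℝ, ∑ i, |t i| ≤ 109 / 100 ∧ y = o + ∑ i, t i • v i)) :
    Separable K o (2 ^ d) ∧ (Separable K o (2 ^ d - 1) ↔ ¬ IsCrossBody K o) := by
  have hpow : 0 < 2 ^ d := by positivity
  have key : Separable K o (2 ^ d) ∧ (IsCrossBody K o ∨ Separable K o (2 ^ d - 1)) := by
    rcases h with ⟨w, h1, h2⟩ | ⟨h1, h2⟩
    · exact H99.Abs.polar_pairs hd K hcp hcv o w v hv h1 h2
    · exact H99.Abs.direct_pairs hd K hcp hcv o v hv h1 h2
  refine ⟨key.1, fun h1 h2 => ?_, fun h1 => ?_⟩
  · have := H99.Near.crossBody_lower hd K o h2 _ h1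
    omega
  · exact key.2.resolve_left h1

end Pool.Agent.Results.MP_5e7226_co.AbsoluteNeighbourhood
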