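import Pool.Agent.H234.Sep.Asym
import Pool.Agent.H777.LB.Final

set_option autoImplicit false

/-!
# MP_5e7226_co: `s(K, o) ≤ 18000 d 2^d` for all convex bodies and all interior points

Let `s(K, o)` be the least number of hyperplanes such that every face of the convex body
`K ⊂ ℝ^d` is strictly separated from the interior point `o` by one of them.

1. `s(K, o) ≤ 18000 d 2^d` for ALL pairs. (This removes the logarithm: the bounds of the type of
   Rogers are `2^d d log d (1 + o(1))` for `K` symmetric about `o` and about `4^d` in general.)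
2. `s(K, o) ≤ 2^d (d log d / 2 + d log log d / 2 + 6 d)` for all pairs, `d ≥ 3` (better for
   moderate `d`).
3. If the gauge function of `K - o` is `h_A + h_B` (sum of the support functions of two compact
   convex sets) and `L ⊆ A` is a convex body, then `s(K, o)` is at most `11 d vol (A - L) / vol L`
   and at most `2^d d (16 + 2 log (1 + log (vol (A - L) / (2^d vol L))))`. With `L = A = - A` this
   is `s(K, o) ≤ 11 d 2^d` if the gauge function of `K - o` is the sum of a norm and any sublinear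
   function, for example a linear function.
4. If `- (K - o) ⊆ (1 + η) (K - o)`, then
   `s(K, o) ≤ 2^d d min (11 (1 + η)^d) (16 + 2 log (1 + d η))`.

Proof. A covering of the polar body of `K` (with respect to `o`) by `N` translates of its interior
gives `N` hyperplanes. The polar body of `K` is `A + B` in 3, and it has at most the asymmetry
`1 + η` about the origin in 4. So the bounds for Hadwiger's covering problem apply.
-/

open MeasureTheory Module Set Real
open scoped Pointwise InnerProductSpace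

namespace Pool.Agent.Results.MP_5e7226_co.LinearBound

/-- There are at most `N` hyperplanes such that every face of `K` is strictly separated from `o`
by one of them (the hyperplane `h` is `{x | ⟪h.1, x⟫ = h.2}`, and the face of `K` in the direction
`u` is the set of all `x ∈ K` at which `⟪u, x⟫` is maximal). -/
def SeparatedBy {d : ℕ} (K : Set (EuclideanSpace ℝ (Fin d))) (o : EuclideanSpace ℝ (Fin d))
    (N : ℝ) : Prop :=
  ∃ H : Finset (EuclideanSpace ℝ (Fin d) × ℝ), (H.card : ℝ) ≤ N ∧ (∀ h ∈ H, h.1 ≠ 0) ∧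
    ∀ u x₀ : EuclideanSpace ℝ (Fin d), u ≠ 0 → x₀ ∈ K → (∀ y ∈ K, ⟪u, y⟫_ℝ ≤ ⟪u, x₀⟫_ℝ) →
      ∃ h ∈ H, ⟪h.1, o⟫_ℝ < h.2 ∧ ∀ x ∈ K, ⟪u, x⟫_ℝ = ⟪u, x₀⟫_ℝ → h.2 < ⟪h.1, x⟫_ℝ

/-- **Main theorem.** -/
theorem result (d : ℕ) (hd : 1 ≤ d) (K : Set (EuclideanSpace ℝ (Fin d)))
    (hKc : IsCompact K) (o : EuclideanSpace ℝ (Fin d)) (ho : o ∈ interior K) :
    SeparatedBy K o (18000 * d * 2 ^ d) ∧
    (3 ≤ d →
    SeparatedBy K o (2 ^ d * (d * log d / 2 + d * log (log d) / 2 + 6 * d)) ∧
    (∀ A B L : Set (EuclideanSpace ℝ (Fin d)), Convex ℝ A → IsCompact A →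
      Convex ℝ B → IsCompact B → B.Nonempty →
      K = {x | ∀ a ∈ A, ∀ b ∈ B, ⟪a + b, x - o⟫_ℝ ≤ 1} →
      L ⊆ A → Convex ℝ L → IsCompact L → (interior L).Nonempty →
      SeparatedBy K o (11 * d * (volume.real (A - L) / volume.real L)) ∧
      SeparatedBy K o (2 ^ d * d *
        (16 + 2 * log (1 + log (volume.real (A - L) / (2 ^ d * volume.real L)))))) ∧
    (∀ η : ℝ, 0 ≤ η → (∀ x ∈ K, o - (1 / (1 + η)) • (x - o) ∈ K) →
      SeparatedBy K o (2 ^ d * d * min (11 * (1 + η) ^ d) (16 + 2 * log (1 + d * η))))) := by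
  have h00 : ({0} : Set (EuclideanSpace ℝ (Fin d))).Nonempty := ⟨0, rfl⟩
  have hPc := Pool.Agent.H234.Sep.pol_convex K o
  have hPk := Pool.Agent.H234.Sep.pol_compact ho
  have hPi : (interior (Pool.Agent.H234.Sep.Pol K o)).Nonempty :=
    ⟨0, Pool.Agent.H234.Sep.pol_int hKc⟩
  refine ⟨?_, fun hd => ⟨?_, ?_, ?_⟩⟩
  · obtain ⟨T, hT, hcard⟩ := Pool.Agent.H777.LB.linear d hd (Pool.Agent.H234.Sep.Pol K o)
      hPc hPk hPi
    exact Pool.Agent.H234.Sep.sep_of_cover ho T hT _ hcard
  · obtain ⟨T, hT, hcard⟩ := Pool.Agent.K3h52.HR.main d hd (Pool.Agent.H234.Sep.Pol K o) {0}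
      hPc hPk hPi (convex_singleton 0) isCompact_singleton h00
    rw [Set.add_singleton, Set.image_congr (fun x _ => add_zero x), Set.image_id'] at hT
    exact Pool.Agent.H234.Sep.sep_of_cover ho T hT _ hcard
  · intro A B L hA hAc hB hBc hBn hK hLA hL hLc hLi
    have hL0 : 0 < volume.real L := Pool.Agent.K3h52.TP.real_pos' volume hLc hLi
    have hAn : A.Nonempty := (hLi.mono interior_subset).mono hLA
    have hP := Pool.Agent.H234.Sep.pol_eq hKc hA hAc hAn hB hBc hBn hK
    constructor
    · obtain ⟨T, hT, hcard⟩ := Pool.Agent.K3h52.LF.main d hd A B L hA hAc hB hBc hBn hL hLc hLi hLA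
      rw [← hP] at hT
      refine Pool.Agent.H234.Sep.sep_of_cover ho T hT _ ?_
      rw [← mul_div_assoc, le_div_iff₀ hL0]
      exact hcard
    · have h2 := Pool.Agent.H234.Cov.vol_sub_ge d A L hAc hLc hLA
      have h3 : 0 < 2 ^ d * volume.real L := by positivity
      obtain ⟨T, hT, hcard⟩ := Pool.Agent.H234.Cov.main d hd A B L hA hAc hB hBc hBn hL hLc hLi hLA
        (volume.real (A - L) / (2 ^ d * volume.real L)) (by rwa [le_div_iff₀ h3, one_mul])
        (le_of_eq (by field_simp))
      rw [← hP] at hT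
      exact Pool.Agent.H234.Sep.sep_of_cover ho T hT _ hcard
  · intro η hη h
    obtain ⟨T, hT, hcard⟩ := Pool.Agent.H234.Sep.asym_min d hd (Pool.Agent.H234.Sep.Pol K o) {0}
      hPc hPk hPi (convex_singleton 0) isCompact_singleton h00 0 η hη
      (Pool.Agent.H234.Sep.pol_asym h)
    rw [Set.add_singleton, Set.image_congr (fun x _ => add_zero x), Set.image_id'] at hT
    exact Pool.Agent.H234.Sep.sep_of_cover ho T hT _ hcard

end Pool.Agent.Results.MP_5e7226_co.LinearBound
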