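import Pool.Agent.H99.NearSharp

/-!
# MP_5e7226_co: a dimension-free neighbourhood of the cross-polytopes

`Separable K o n`: there are `n` hyperplanes such that every face of `K` is strictly separated from
`o` by one of them. `IsCrossBody K o`: `K` is a cross-body centred at `o`. (Both as in the frozen
statement.) Let `d ≥ 3`. We prove the two assertions of Q1, with the sharper bound `2 ^ d - 2` for
centrally symmetric bodies if `d ≥ 4`, for all pairs `(K, o)` of the following kinds, where
`O = conv {o ± v i}` is a cross-polytope contained in `K`: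

1. `K` is contained in `o + (3/2) (O - o)` and in the parallelotope `{o + ∑ t i v i : |t i| ≤ 1}`
   (`K` need not be symmetric);
2. `K` is symmetric about `o`, `O` has the largest volume of all such cross-polytopes in `K`, and
   `K` is contained in `o + (3/2) (O - o)`;
3. `K` is symmetric about `o` and contained in `o + (23/20) (O - o)`; so the theorem holds for all
   centrally symmetric bodies at Banach-Mazur distance at most `1.15` from the cross-polytope, in
   every dimension.

The radius does not depend on the dimension. 4. The numbers `2 ^ d - 1` (general `K`) and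
`2 ^ d - 2` (symmetric `K`) are optimal, arbitrarily close to the cross-polytope.

The proof of 1. Coordinates with respect to the `v i`; the supporting hyperplanes of `K` are the
boundary points `x` of the polar body `P ⊆ [-1, 1]^d`, and it is enough to find for every `x` a
functional `s` from the family with `s p ≥ c > 0` for all `p` in the face, `∑ p i x i = 1`,
`|p i| ≤ 1`, `∑ |p i| ≤ 1 + r`, where `1 + r = ∑ y i` is the largest `ℓ₁` norm on `K`, attained at
`y ∈ K`, and `y ≥ 0` after a change of signs. The family consists of the sign vectors with at least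
two entries `-1` and of the vectors `1 - (1 + κ) e_j`, `κ = 0.57 r`. If at least two `x i` are at
most `3/10`, take the sign vector which is `-1` exactly there; if only `x j` is, take
`1 - (1 + κ) e_j`; if there are none, take `1 - (1 + κ) e_j` for the smallest `x j`, which is at
most `1 / (1 + r)` since `∑ x i y i ≤ 1`. 3 is reduced to 1 by an inscribed cross-polytope of
locally maximal volume.
-/

set_option autoImplicit false

open scoped InnerProductSpace

namespace Pool.Agent.Results.MP_5e7226_co.NearCrossPolytopes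

/-- Euclidean space. -/
abbrev E (d : ℕ) := EuclideanSpace ℝ (Fin d)

/-- There are `n` hyperplanes `{x | ⟪w i, x⟫ = b i}` such that every face of `K` (the set of the
points of `K` at which a functional `⟪u, ·⟫`, `u ≠ 0`, is maximal on `K`) is strictly separated from
`o` by at least one of them. -/
def Separable {d : ℕ} (K : Set (E d)) (o : E d) (n : ℕ) : Prop :=
  ∃ w : Fin n → E d, ∃ b : Fin n → ℝ, ∀ u x₀ : E d, u ≠ 0 → x₀ ∈ K →
    (∀ y ∈ K, ⟪u, y⟫_ℝ ≤ ⟪u, x₀⟫_ℝ) →
      ∃ i, ⟪w i, o⟫_ℝ < b i ∧ ∀ x ∈ K, ⟪u, x⟫_ℝ = ⟪u, x₀⟫_ℝ → b i < ⟪w i, x⟫_ℝ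

/-- `K` is a cross-body centred at `o`: the convex hull of `d` segments with linearly independent
directions which contain `o` in their relative interiors. -/
def IsCrossBody {d : ℕ} (K : Set (E d)) (o : E d) : Prop :=
  ∃ v : Fin d → E d, ∃ t : Fin d → ℝ, LinearIndependent ℝ v ∧ (∀ i, 0 < t i) ∧
    K = convexHull ℝ (⋃ i, ({o + v i, o - t i • v i} : Set (E d)))

/-- `K` is symmetric about `o`. -/
def IsSymm {d : ℕ} (K : Set (E d)) (o : E d) : Prop := ∀ x ∈ K, (2 : ℝ) • o - x ∈ K

/-- Both assertions of Q1 for the pair `(K, o)`: `2 ^ d` hyperplanes suffice, and `2 ^ d - 1` do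
unless `K` is a cross-body centred at `o`; if `d ≥ 4` and `K` is symmetric about `o` then even
`2 ^ d - 2` hyperplanes suffice unless `K` is a cross-body. -/
def Conclusion {d : ℕ} (K : Set (E d)) (o : E d) : Prop :=
  Separable K o (2 ^ d) ∧ (Separable K o (2 ^ d - 1) ↔ ¬ IsCrossBody K o) ∧
    (4 ≤ d → IsSymm K o → (Separable K o (2 ^ d - 2) ↔ ¬ IsCrossBody K o))

/-- **Main theorem.** -/
theorem result (d : ℕ) (hd : 3 ≤ d) :
    -- (1) bodies with a frame
    (∀ (K : Set (E d)) (o : E d) (v : Fin d → E d), Convex ℝ K → IsCompact K →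
      LinearIndependent ℝ v → (∀ i, o + v i ∈ K ∧ o - v i ∈ K) →
      (∀ x ∈ K, ∃ t : Fin d → ℝ, (∀ i, |t i| ≤ 1) ∧ ∑ i, |t i| ≤ 3 / 2 ∧
        x = o + ∑ i, t i • v i) →
      Conclusion K o) ∧
    -- (2) symmetric bodies close to their largest inscribed cross-polytope
    (∀ (K : Set (E d)) (o : E d) (v : Fin d → E d), Convex ℝ K → IsCompact K → IsSymm K o →
      LinearIndependent ℝ v → (∀ i, o + v i ∈ K) →
      (∀ w : Fin d → E d, (∀ i, o + w i ∈ K) →
        |(Matrix.of fun i j => w i j).det| ≤ |(Matrix.of fun i j => v i j).det|) →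
      (∀ x ∈ K, ∃ t : Fin d → ℝ, ∑ i, |t i| ≤ 3 / 2 ∧ x = o + ∑ i, t i • v i) →
      Conclusion K o) ∧
    -- (3) symmetric bodies close to any cross-polytope
    (∀ (K : Set (E d)) (o : E d) (v : Fin d → E d), Convex ℝ K → IsCompact K → IsSymm K o →
      LinearIndependent ℝ v → (∀ i, o + v i ∈ K) →
      (∀ x ∈ K, ∃ t : Fin d → ℝ, ∑ i, |t i| ≤ 23 / 20 ∧ x = o + ∑ i, t i • v i) →
      Conclusion K o) ∧
    -- (4) the bounds are sharp arbitrarily close to the cross-polytope
    (∀ η : ℝ, 0 < η →
      (∃ K : Set (E d), Convex ℝ K ∧ IsCompact K ∧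
        (∀ i, EuclideanSpace.single i (1 : ℝ) ∈ K ∧ -EuclideanSpace.single i (1 : ℝ) ∈ K) ∧
        (∀ x ∈ K, (∀ i, |x i| ≤ 1) ∧ ∑ i, |x i| ≤ 1 + η) ∧ ¬ IsCrossBody K 0 ∧
        ∀ n, Separable K 0 n → 2 ^ d - 1 ≤ n) ∧
      ∃ K : Set (E d), Convex ℝ K ∧ IsCompact K ∧ IsSymm K 0 ∧
        (∀ i, EuclideanSpace.single i (1 : ℝ) ∈ K) ∧
        (∀ x ∈ K, (∀ i, |x i| ≤ 1) ∧ ∑ i, |x i| ≤ 1 + η) ∧ ¬ IsCrossBody K 0 ∧
        ∀ n, Separable K 0 n → 2 ^ d - 2 ≤ n) := by
  classical
  have hd1 : 1 ≤ d := by omega
  have hpow : 2 < 2 ^ d := lt_of_lt_of_le (by norm_num) (Nat.pow_le_pow_right (by norm_num) hd)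
  -- (1)
  have P1 : ∀ (K : Set (E d)) (o : E d) (v : Fin d → E d), Convex ℝ K → IsCompact K →
      LinearIndependent ℝ v → (∀ i, o + v i ∈ K ∧ o - v i ∈ K) →
      (∀ x ∈ K, ∃ t : Fin d → ℝ, (∀ i, |t i| ≤ 1) ∧ ∑ i, |t i| ≤ 3 / 2 ∧
        x = o + ∑ i, t i • v i) →
      Conclusion K o := by
    intro K o v hcv hcp hv hvK hfr
    obtain ⟨h1, h2, h3⟩ := H99.Near.frame hd1 K hcv hcp o v hv hvK hfr
    have hcr : K = H99.Near.cross o v → IsCrossBody K o := by
      intro h
      rw [h]
      exact H99.Near.isCrossBody_cross o v hv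
    refine ⟨h1, ⟨fun h hc => ?_, fun h => ?_⟩, fun h4 hs => ⟨fun h hc => ?_, fun h => ?_⟩⟩
    · have := H99.Near.crossBody_lower hd1 K o hc _ h
      omega
    · rcases h2 with h2 | h2
      · exact absurd (hcr h2) h
      · exact h2
    · have := H99.Near.crossBody_lower hd1 K o hc _ h
      omega
    · rcases h3 h4 hs with h3 | h3
      · exact absurd (hcr h3) h
      · exact h3
  refine ⟨P1, ?_, ?_, ?_⟩
  · -- (2)
    intro K o v hcv hcp hs hv hvK hmax hfr
    have hvK' : ∀ i, o + v i ∈ K ∧ o - v i ∈ K := by
      intro i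
      refine ⟨hvK i, ?_⟩
      have h := hs _ (hvK i)
      have e : (2 : ℝ) • o - (o + v i) = o - v i := by module
      rwa [e] at h
    refine P1 K o v hcv hcp hv hvK' ?_
    intro x hx
    obtain ⟨t, ht, rfl⟩ := hfr x hx
    refine ⟨t, fun i => ?_, ht, rfl⟩
    -- replace `v i` by `∑ t k v k`
    set A : Matrix (Fin d) (Fin d) ℝ := Matrix.of fun i j => v i j with hA
    have hdet : A.det ≠ 0 := by
      intro h0
      rw [← Matrix.exists_vecMul_eq_zero_iff] at h0
      obtain ⟨f, hf0, hf⟩ := h0
      apply hf0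
      have h1 : ∑ k, f k • v k = 0 := by
        ext j
        have := congrFun hf j
        simp only [Matrix.vecMul, dotProduct, hA, Matrix.of_apply] at this
        simpa using this
      have h2 := Fintype.linearIndependent_iff.mp hv f h1
      exact funext h2
    have hw := hmax (fun k => if k = i then ∑ l, t l • v l else v k) (by
      intro k
      by_cases hk : k = i
      · simp only [hk, if_true]; exact hx
      · simp only [hk, if_false]; exact hvK k)
    have e1 : (Matrix.of fun k j => (if k = i then ∑ l, t l • v l else v k : E d) j) =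
        A.updateRow i (∑ l, t l • A l) := by
      ext k j
      by_cases hk : k = i
      · subst hk
        simp [hA]
      · simp [hA, hk]
    rw [e1, Matrix.det_updateRow_sum, smul_eq_mul, abs_mul] at hw
    have h4 : |t i| * |A.det| ≤ 1 * |A.det| := by rw [one_mul]; exact hw
    exact le_of_mul_le_mul_right h4 (abs_pos.mpr hdet)
  · -- (3)
    intro K o v hcv hcp hs hv hvK hfr
    obtain ⟨u, hu1, hu2, hu3⟩ := H99.Near.banachMazur hd1 K hcv hcp o hs v hv hvK hfr
    exact P1 K o u hcv hcp hu1 hu2 hu3
  · -- (4)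
    intro η hη
    have hdpos : (0 : ℝ) < d := by exact_mod_cast hd1
    have h0' : 0 < min η (1 / d) := lt_min hη (by positivity)
    have h1' : min η (1 / (d : ℝ)) ≤ 1 / d := min_le_right _ _
    have h2' : min η (1 / (d : ℝ)) ≤ η := min_le_left _ _
    set η' := min η (1 / (d : ℝ)) with hη'
    constructor
    · -- one additional point
      have hZ : ({H99.Near.qpt d η'} : Set (E d)) ⊆ {H99.Near.qpt d η', -H99.Near.qpt d η'} := by
        intro z hz
        exact Or.inl hz
      obtain ⟨a1, a2, a3, a4, a5⟩ := H99.Near.example_props hd η' h0' h1' _ hZ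
        (Set.mem_singleton _)
      refine ⟨_, a1, a2, a3, fun x hx => ⟨(a4 x hx).1, by linarith [(a4 x hx).2]⟩, a5, ?_⟩
      intro n hn
      have h := H99.Near.lower hd1 _ a3 (Finset.univ.filter fun S : Finset (Fin d) => S.Nonempty)
        (by
          intro S hS
          exact H99.Near.gens_le hd η' h0' h1' _ hZ S (by simpa using hS)
            (Or.inr Set.Subset.rfl)) n hn
      rw [← Fintype.card_subtype, H99.Near.card_nonempty] at h
      exact h
    · -- two additional points
      have hZ : ({H99.Near.qpt d η', -H99.Near.qpt d η'} : Set (E d)) ⊆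
          {H99.Near.qpt d η', -H99.Near.qpt d η'} := Set.Subset.rfl
      obtain ⟨a1, a2, a3, a4, a5⟩ := H99.Near.example_props hd η' h0' h1' _ hZ (by simp)
      refine ⟨_, a1, a2, ?_, fun i => (a3 i).1,
        fun x hx => ⟨(a4 x hx).1, by linarith [(a4 x hx).2]⟩, a5, ?_⟩
      · intro x hx
        have e : (2 : ℝ) • (0 : E d) - x = -x := by simp
        rw [e]
        have hcv : Convex ℝ {x : E d | -x ∈ convexHull ℝ (H99.Near.gens d
            {H99.Near.qpt d η', -H99.Near.qpt d η'})} := by
          have := a1.neg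
          exact this
        refine convexHull_min ?_ hcv hx
        rintro y (hy | hy)
        · obtain ⟨i, hi⟩ := Set.mem_iUnion.mp hy
          rcases hi with h | h
          · rw [h]; exact (a3 i).2
          · rw [Set.mem_singleton_iff] at h
            rw [h]
            show - -EuclideanSpace.single i (1 : ℝ) ∈ convexHull ℝ (H99.Near.gens d
              {H99.Near.qpt d η', -H99.Near.qpt d η'})
            rw [neg_neg]; exact (a3 i).1
        · rcases hy with h | h
          · rw [h]
            exact subset_convexHull ℝ _ (Or.inr (by simp))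
          · rw [Set.mem_singleton_iff] at h
            rw [h]
            show - -H99.Near.qpt d η' ∈ convexHull ℝ (H99.Near.gens d
              {H99.Near.qpt d η', -H99.Near.qpt d η'})
            rw [neg_neg]
            exact subset_convexHull ℝ _ (Or.inr (by simp))
      · intro n hn
        have h := H99.Near.lower hd1 _ a3
          (Finset.univ.filter fun S : Finset (Fin d) => S.Nonempty ∧ Sᶜ.Nonempty)
          (by
            intro S hS
            have hS' : S.Nonempty ∧ Sᶜ.Nonempty := by simpa using hS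
            exact H99.Near.gens_le hd η' h0' h1' _ hZ S hS'.1 (Or.inl hS'.2)) n hn
        rw [← Fintype.card_subtype, H99.Near.card_proper hd1] at h
        exact h

end Pool.Agent.Results.MP_5e7226_co.NearCrossPolytopes
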