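import Mathlib
import Pool.Agent.H283.Cheb.Dual

/-!
# MP_5e7226_co: symmetric convex hulls of weighted moment curves on the circle

Let `m ≥ 1` and `γ(θ) = (cos^m θ, cos^(m-1) θ sin θ, ..., sin^m θ)`, a closed curve in `ℝ^(m+1)`
with `γ(θ + π) = (-1)^m γ(θ)`. Let `ω` be a positive continuous function with
`ω(θ + π) = ω(θ)` and let `K ⊂ ℝ^(m+1)` be the convex hull of the points `± γ(θ) / ω(θ)`.
Examples: for `ω = 1` and odd `m` the body `K` is, up to a linear map, the convex hull of the
symmetric moment curve `(cos θ, sin θ, cos 3θ, sin 3θ, ..., cos mθ, sin mθ)` (the Barvinok-Novik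
orbitope); for `ω = 1` and `m = 2 k` it is the convex hull of `± (1, cos θ, sin θ, ..., cos kθ,
sin kθ)`; for a norm on the plane and `ω(θ) = ‖(cos θ, sin θ)‖^m` it is the unit ball of the
symmetric tensor power with its projective symmetric tensor norm.

We assume that `ω` has no convex corners: two functions which touch `ω` from below at the same
point and are differentiable there have the same derivative there (for example `ω` is
differentiable).

We prove that `2^m + 2` hyperplanes separate strictly all faces of `K` from its centre `0`. With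
`d = m + 1` this is `2^(d-1) + 2`, which is less than `2^d` for `d ≥ 3`. So both parts of the
conjecture hold for `(K, 0)`: the bound `2^d`, and no equality.

Idea of the proof. The polar body of `K` is the set `B` of the binary forms `F` of degree `m` with
`|F(cos θ, sin θ)| ≤ ω(θ)`. Let `P ∈ B` be a snake: its contact points (the points with
`|P| = ω`) `c_0 < ... < c_m = c_0 + π` have alternating signs. By counting the zeros of `P - F`
and of `P + F` (a common contact point is a double zero) one sees: if `F ∈ B` is not `± P` then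
all contact points of `F` in one closed interval `[c_i, c_(i+1)]` have the same sign. Hence on
`[c_0, c_0 + π]` the contact points of `F` have the signs of one of the `2^m` products
`± ∏_{i ∈ S} sin (θ - c_i)`, `S ⊆ {1, ..., m-1}`, which can be made forms of degree `m` with these
signs. These and `± P` are the normals of the hyperplanes.
-/

namespace Pool.Agent.Results.MP_5e7226_co.SymmetricFormCurves

open Set Filter Topology
open Pool.Agent.H283.Cheb
open scoped InnerProductSpace

/-- The curve `θ ↦ (cos^m θ, cos^(m-1) θ sin θ, ..., sin^m θ)` in `ℝ^(m+1)`. -/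
noncomputable def curve (m : ℕ) (θ : ℝ) : EuclideanSpace ℝ (Fin (m + 1)) :=
  WithLp.toLp 2 (fun i => Real.cos θ ^ (m - (i : ℕ)) * Real.sin θ ^ (i : ℕ))

/-- The convex hull of the points `± curve(θ) / ω(θ)`. -/
def hull (m : ℕ) (ω : ℝ → ℝ) : Set (EuclideanSpace ℝ (Fin (m + 1))) :=
  convexHull ℝ (range (fun θ => (ω θ)⁻¹ • curve m θ) ∪ range (fun θ => -((ω θ)⁻¹ • curve m θ)))

/-- `ω` has no convex corners: two functions which touch `ω` from below at `y` and are
differentiable at `y` have the same derivative at `y`. -/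
def NoConvexCorner (ω : ℝ → ℝ) : Prop :=
  ∀ y : ℝ, ∀ f g : ℝ → ℝ, DifferentiableAt ℝ f y → DifferentiableAt ℝ g y →
    f y = ω y → g y = ω y → (∀ᶠ t in 𝓝 y, f t ≤ ω t) → (∀ᶠ t in 𝓝 y, g t ≤ ω t) →
    deriv f y = deriv g y

/-- `N` hyperplanes separate strictly all faces of `K` from the point `o`. The hyperplanes are
`{x | ⟪w i, x⟫ = b i}`; a face is the set of the points of `K` at which some nonzero linear
functional `⟪u, ·⟫` is maximal. -/
def Separated {d : ℕ} (K : Set (EuclideanSpace ℝ (Fin d))) (o : EuclideanSpace ℝ (Fin d))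
    (N : ℕ) : Prop :=
  ∃ w : Fin N → EuclideanSpace ℝ (Fin d), ∃ b : Fin N → ℝ,
    ∀ u x₀ : EuclideanSpace ℝ (Fin d), u ≠ 0 → x₀ ∈ K → (∀ y ∈ K, ⟪u, y⟫_ℝ ≤ ⟪u, x₀⟫_ℝ) →
      ∃ i, ⟪w i, o⟫_ℝ < b i ∧ ∀ x ∈ K, ⟪u, x⟫_ℝ = ⟪u, x₀⟫_ℝ → b i < ⟪w i, x⟫_ℝ

/-- **Theorem.** Let `m ≥ 1` and let `ω` be continuous, positive, `π`-periodic, without convex
corners. The convex hull `K` of the points `± curve(θ) / ω(θ)` is a convex body in `ℝ^(m+1)` with
`0` in its interior, and `2^m + 2` hyperplanes separate strictly all faces of `K` from `0`. -/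
theorem result (m : ℕ) (hm : 1 ≤ m) (ω : ℝ → ℝ) (hω : Continuous ω)
    (hper : Function.Periodic ω Real.pi) (hpos : ∀ θ, 0 < ω θ) (hcorner : NoConvexCorner ω) :
    Convex ℝ (hull m ω) ∧ IsCompact (hull m ω) ∧ 0 ∈ interior (hull m ω) ∧
      Separated (hull m ω) 0 (2 ^ m + 2) := by
  have hsl : FormSlope m ω := by
    intro y f g hf hg hf' hg'
    exact hcorner y (fv f) (fv g) (differentiable_fv f y) (differentiable_fv g y) hf hg
      (Eventually.of_forall hf') (Eventually.of_forall hg')
  exact ⟨convex_convexHull ℝ _, isCompact_formHull hω hper hpos,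
    zero_mem_interior_formHull hω hper hpos, separated_formHull hω hper hpos hsl hm⟩

end Pool.Agent.Results.MP_5e7226_co.SymmetricFormCurves
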